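import Mathlib

/-!
# Two-dimensional complexes with an extremal corner at every 2-cell

A 2-complex with one vertex is given by its 1-cells `V` and the attaching words of its 2-cells
`e : E`, arbitrary words in the letters `x_v`, `x_v⁻¹`.  For an action of the fundamental group on a
totally ordered set such that every 2-cell has an extremal corner, every finite set of 2-cells of
the universal covering has a free side.
-/

set_option autoImplicit false

namespace Pool.Agent.Q279.OT

/-- A 2-complex with one vertex: the 1-cells are the elements of `V`, the 2-cells are the elements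
of `E`, and `e` is attached along the word `word e`, where `(v, true)` is the letter `x_v` and
`(v, false)` is the letter `x_v⁻¹`. -/
structure Pres (V E : Type) where
  word : E → List (V × Bool)

variable {V E : Type}

/-- The relator of the 2-cell `e`. -/
def Pres.rel (P : Pres V E) (e : E) : FreeGroup V := FreeGroup.mk (P.word e)

/-- The fundamental group: generators `V`, relators `rel e`. -/
abbrev Pres.G (P : Pres V E) : Type := PresentedGroup (Set.range P.rel)

/-- The projection of the free group onto the fundamental group. -/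
def Pres.pr (P : Pres V E) : FreeGroup V →* P.G := PresentedGroup.mk (Set.range P.rel)

/-- The generator of the group belonging to the 1-cell `v`. -/
def Pres.gen (P : Pres V E) (v : V) : P.G := P.pr (FreeGroup.of v)

/-- The number of sides of the 2-cell `e`. -/
abbrev Pres.len (P : Pres V E) (e : E) : ℕ := (P.word e).length

/-- The 1-cell at the side `k` of the 2-cell `e`. -/
def Pres.sv (P : Pres V E) (e : E) (k : Fin (P.len e)) : V := ((P.word e).get k).1

/-- The initial point of the side `k` of the 2-cell `e` with base point `1` in the universal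
covering: the value of the word before the letter `k` if this letter is `x_v`, and of the word up to
this letter if it is `x_v⁻¹`. -/
def Pres.sg (P : Pres V E) (e : E) (k : Fin (P.len e)) : P.G :=
  P.pr (FreeGroup.mk ((P.word e).take (if ((P.word e).get k).2 then (k : ℕ) else k + 1)))

/-- The direction in which the boundary of `e` passes through the side `k`. -/
def Pres.sgn (P : Pres V E) (e : E) (k : Fin (P.len e)) : ℤ :=
  if ((P.word e).get k).2 then 1 else -1

theorem sgn_ne (P : Pres V E) (e : E) (k : Fin (P.len e)) : P.sgn e k ≠ 0 := by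
  unfold Pres.sgn
  split_ifs <;> decide

variable {A : Type} [Group A]

/-- The side `k` of the 2-cell `(e, a)` of the covering belonging to `ρ : G → A` (the universal
covering for `ρ = id`); the pair `(v, a)` is the edge from `a` to `a ρ(x_v)`. -/
def Pres.side (P : Pres V E) (ρ : P.G →* A) (c : E × A) (k : Fin (P.len c.1)) : V × A :=
  (P.sv c.1 k, c.2 * ρ (P.sg c.1 k))

/-- Every nonempty finite set of 2-cells of the covering belonging to `ρ` has a free side: a side of
one of its 2-cells through which the boundaries of the 2-cells of the set pass only once. -/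
def Pres.FreeSides (P : Pres V E) (ρ : P.G →* A) : Prop :=
  ∀ S : Finset (E × A), S.Nonempty →
    ∃ d ∈ S, ∃ k : Fin (P.len d.1), ∀ d' ∈ S, ∀ k' : Fin (P.len d'.1),
      P.side ρ d' k' = P.side ρ d k → d' = d ∧ (k' : ℕ) = k

/-- The group acts by `ρ` on the totally ordered set `Ω` by order automorphisms; every 2-cell `e`
has a point `w e` of `Ω` and a side `c e` such that
`(sg e (c e))⁻¹ (w e) < (sg e' k')⁻¹ (w e')` for all the other sides `k'` of 2-cells `e'` at the
same 1-cell. -/
def Pres.OrderedTest (P : Pres V E) (Ω : Type) [LinearOrder Ω] (ρ : P.G →* (Ω ≃o Ω)) : Prop :=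
  ∃ (w : E → Ω) (c : (e : E) → Fin (P.len e)), ∀ (e e' : E) (k' : Fin (P.len e')),
    P.sv e' k' = P.sv e (c e) → (e' ≠ e ∨ (k' : ℕ) ≠ c e) →
      (ρ (P.sg e (c e)))⁻¹ (w e) < (ρ (P.sg e' k'))⁻¹ (w e')

theorem free_side (P : Pres V E) (ρ : P.G →* A) {Ω : Type} [LinearOrder Ω] [MulAction A Ω]
    (hΩ : ∀ a : A, StrictMono (fun x : Ω => a • x)) (w : E → Ω) (c : (e : E) → Fin (P.len e))
    (hlt : ∀ (e e' : E) (k' : Fin (P.len e')), P.sv e' k' = P.sv e (c e) →
      (e' ≠ e ∨ (k' : ℕ) ≠ c e) →
      (ρ (P.sg e (c e)))⁻¹ • w e < (ρ (P.sg e' k'))⁻¹ • w e') : P.FreeSides ρ := by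
  intro S hS
  obtain ⟨⟨e, h⟩, hd, hmax⟩ := S.exists_max_image (fun d => d.2 • w d.1) hS
  refine ⟨(e, h), hd, c e, ?_⟩
  rintro ⟨e', h'⟩ hd' k' heq
  unfold Pres.side at heq
  simp only [Prod.mk.injEq] at heq
  obtain ⟨h1, h2⟩ := heq
  by_cases hcase : e' ≠ e ∨ (k' : ℕ) ≠ c e
  · exfalso
    have h3 := hlt e e' k' h1 hcase
    have h4 := hΩ (h * ρ (P.sg e (c e))) h3
    simp only at h4
    rw [← mul_smul, mul_assoc, mul_inv_cancel, mul_one, ← h2, ← mul_smul, mul_assoc,
      mul_inv_cancel, mul_one] at h4
    exact absurd (hmax (e', h') hd') (not_le.2 h4)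
  · push Not at hcase
    obtain ⟨rfl, h3⟩ := hcase
    have h3' : k' = c e' := Fin.ext h3
    subst h3'
    have h4 : h' = h := mul_right_cancel h2
    subst h4
    exact ⟨rfl, rfl⟩

theorem freeSides_of_ordered (P : Pres V E) {Ω : Type} [LinearOrder Ω] (ρ : P.G →* (Ω ≃o Ω))
    (h : P.OrderedTest Ω ρ) : P.FreeSides ρ := by
  letI : MulAction (Ω ≃o Ω) Ω :=
    { smul := fun g x => g x
      one_smul := fun x => rfl
      mul_smul := fun g h x => rfl }
  obtain ⟨w, c, hlt⟩ := h
  exact free_side P ρ (Ω := Ω) (fun g => g.strictMono) w c hlt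

theorem freeSides_univ (P : Pres V E) {Ω : Type} [LinearOrder Ω] (ρ : P.G →* (Ω ≃o Ω))
    (h : P.OrderedTest Ω ρ) : P.FreeSides (MonoidHom.id P.G) := by
  letI : MulAction P.G Ω :=
    { smul := fun g x => ρ g x
      one_smul := fun x => by
        show ρ 1 x = x
        rw [map_one]; rfl
      mul_smul := fun g h x => by
        show ρ (g * h) x = ρ g (ρ h x)
        rw [map_mul]; rfl }
  have hsm : ∀ (g : P.G) (x : Ω), g • x = ρ g x := fun _ _ => rfl
  obtain ⟨w, c, hlt⟩ := h
  refine free_side P (MonoidHom.id P.G) (Ω := Ω) (fun g => (ρ g).strictMono) w c ?_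
  intro e e' k' h1 h2
  rw [hsm, hsm, MonoidHom.id_apply, MonoidHom.id_apply, map_inv, map_inv]
  exact hlt e e' k' h1 h2

/-! ### The universal covering -/

/-- The boundary operator from the 2-chains to the 1-chains of the universal covering. -/
noncomputable def Pres.bdry (P : Pres V E) (c : (E × P.G) →₀ ℤ) : (V × P.G) →₀ ℤ :=
  c.sum fun d n => ∑ k : Fin (P.len d.1),
    Finsupp.single (P.side (MonoidHom.id P.G) d k) (P.sgn d.1 k * n)

/-- Reducibility of closed diagrams.  A closed diagram in the universal covering consists of finitely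
many polygons `f : F`, every one mapped onto a 2-cell `c f`, the sides of the polygons being glued
in pairs (`τ x` is the side glued to the side `x`) such that glued sides are mapped onto the same
edge of the universal covering.  Every such diagram contains two different polygons which are glued
along a side and are mirror images of each other with respect to this side. -/
def Pres.Folds (P : Pres V E) : Prop :=
  ∀ (F : Type) [Finite F] [Nonempty F] (c : F → E × P.G)
    (τ : (Σ f : F, Fin (P.len (c f).1)) → (Σ f : F, Fin (P.len (c f).1))),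
    (∀ x, τ x ≠ x) →
    (∀ x, P.side (MonoidHom.id P.G) (c (τ x).1) (τ x).2 =
      P.side (MonoidHom.id P.G) (c x.1) x.2) →
      ∃ x, (τ x).1 ≠ x.1 ∧ c (τ x).1 = c x.1 ∧ ((τ x).2 : ℕ) = x.2

theorem bdry_apply_free (P : Pres V E) (c : (E × P.G) →₀ ℤ) (d : E × P.G) (hd : d ∈ c.support)
    (k : Fin (P.len d.1))
    (h : ∀ d' ∈ c.support, ∀ k' : Fin (P.len d'.1),
      P.side (MonoidHom.id P.G) d' k' = P.side (MonoidHom.id P.G) d k →
        d' = d ∧ (k' : ℕ) = k) :
    P.bdry c (P.side (MonoidHom.id P.G) d k) = P.sgn d.1 k * c d := by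
  classical
  unfold Pres.bdry Finsupp.sum
  rw [Finset.sum_apply']
  rw [Finset.sum_eq_single d]
  · rw [Finset.sum_apply', Finset.sum_eq_single k]
    · rw [Finsupp.single_eq_same]
    · intro k' _ hk'
      rw [Finsupp.single_eq_of_ne]
      intro heq
      first
        | exact hk' (Fin.ext (h d hd k' heq).2)
        | exact hk' (Fin.ext (h d hd k' heq.symm).2)
    · intro hk
      exact absurd (Finset.mem_univ _) hk
  · intro d' hd' hne
    rw [Finset.sum_apply']
    refine Finset.sum_eq_zero fun k' _ => ?_
    rw [Finsupp.single_eq_of_ne]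
    intro heq
    first
      | exact hne (h d' hd' k' heq).1
      | exact hne (h d' hd' k' heq.symm).1
  · intro hn
    exact absurd hd hn

theorem folds (P : Pres V E) (hfree : P.FreeSides (MonoidHom.id P.G)) : P.Folds := by
  classical
  intro F _ _ c τ hτ hs
  haveI := Fintype.ofFinite F
  obtain ⟨d, hd, k, hk⟩ := hfree (Finset.univ.image c)
    (Finset.Nonempty.image Finset.univ_nonempty c)
  obtain ⟨f, -, rfl⟩ := Finset.mem_image.1 hd
  obtain ⟨h1, h2⟩ := hk (c (τ ⟨f, k⟩).1) (Finset.mem_image_of_mem c (Finset.mem_univ _))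
    (τ ⟨f, k⟩).2 (hs ⟨f, k⟩)
  refine ⟨⟨f, k⟩, ?_, h1, h2⟩
  intro h3
  apply hτ ⟨f, k⟩
  generalize τ ⟨f, k⟩ = y at h2 h3
  obtain ⟨f', k'⟩ := y
  simp only at h2 h3
  subst h3
  rw [Fin.ext h2]

theorem bdry_inj (P : Pres V E) (hfree : P.FreeSides (MonoidHom.id P.G))
    (c : (E × P.G) →₀ ℤ) (hc : P.bdry c = 0) : c = 0 := by
  by_contra hne
  obtain ⟨d, hd, k, hk⟩ := hfree c.support (Finsupp.support_nonempty_iff.2 hne)
  have h1 := bdry_apply_free P c d hd k hk
  rw [hc, Finsupp.coe_zero, Pi.zero_apply] at h1
  rcases mul_eq_zero.1 h1.symm with h2 | h2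
  · exact sgn_ne P d.1 k h2
  · exact (Finsupp.mem_support_iff.1 hd) h2

end Pool.Agent.Q279.OT
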