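import Pool.Agent.Q279.OT.Base

/-!
# Cocycles on the coverings of a 2-complex

Endomorphisms of the fundamental groupoid of the 1-skeleton of a covering which are trivial on
finitely many 2-cells; they exist if every finite set of 2-cells of the covering has a free side.
-/

set_option autoImplicit false

namespace Pool.Agent.Q279.OT

variable {V E : Type} {A : Type} [Group A]

theorem pr_rel (P : Pres V E) (e : E) : P.pr (P.rel e) = 1 :=
  PresentedGroup.one_of_mem ⟨e, rfl⟩

/-- A cocycle on the covering belonging to `ρ : G → A` with values in the free group, over the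
identity of the group. -/
structure Pres.Coc (P : Pres V E) (ρ : P.G →* A) where
  c : A → FreeGroup V → FreeGroup V
  mul : ∀ a w w', c a (w * w') = c a w * c (a * ρ (P.pr w)) w'
  pr_c : ∀ a w, P.pr (c a w) = P.pr w

namespace Pres.Coc

variable {P : Pres V E} {ρ : P.G →* A}

theorem one (C : P.Coc ρ) (a : A) : C.c a 1 = 1 := by
  have h := C.mul a 1 1
  rw [mul_one, map_one, map_one, mul_one] at h
  exact (mul_eq_left.1 h.symm)

theorem inv (C : P.Coc ρ) (a : A) (w : FreeGroup V) :
    C.c a w⁻¹ = (C.c (a * (ρ (P.pr w))⁻¹) w)⁻¹ := by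
  have h := C.mul a w⁻¹ w
  rw [inv_mul_cancel, C.one, map_inv, map_inv] at h
  exact eq_inv_of_mul_eq_one_left h.symm

/-- the trivial cocycle -/
def triv (P : Pres V E) (ρ : P.G →* A) : P.Coc ρ :=
  ⟨fun _ w => w, fun _ _ _ => rfl, fun _ _ => rfl⟩

/-- composition -/
def comp (C D : P.Coc ρ) : P.Coc ρ where
  c a w := C.c a (D.c a w)
  mul a w w' := by rw [D.mul, C.mul, D.pr_c]
  pr_c a w := by rw [C.pr_c, D.pr_c]

end Pres.Coc

/-- translations of functions -/
def shiftAut (A X : Type) [Group A] [Group X] : A →* MulAut (A → X) where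
  toFun g :=
    { toFun := fun f a => f (a * g)
      invFun := fun f a => f (a * g⁻¹)
      left_inv := fun f => by funext a; simp
      right_inv := fun f => by funext a; simp
      map_mul' := fun _ _ => rfl }
  map_one' := by
    ext f a
    show f (a * 1) = f a
    rw [mul_one]
  map_mul' g h := by
    ext f a
    show f (a * (g * h)) = f (a * g * h)
    rw [mul_assoc]

theorem shiftAut_apply {A X : Type} [Group A] [Group X] (g : A) (f : A → X) (a : A) :
    shiftAut A X g f a = f (a * g) := rfl

/-- the cocycle with prescribed values on the generators -/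
theorem exists_lift (P : Pres V E) (ρ : P.G →* A) (C : V → A → FreeGroup V)
    (hC : ∀ v a, P.pr (C v a) = P.gen v) :
    ∃ c : P.Coc ρ, ∀ v a, c.c a (FreeGroup.of v) = C v a := by
  let Φ : FreeGroup V →* (A → FreeGroup V) ⋊[shiftAut A (FreeGroup V)] A :=
    FreeGroup.lift (fun v => ⟨C v, ρ (P.gen v)⟩)
  have hr : ∀ w, (Φ w).right = ρ (P.pr w) := by
    intro w
    have h : (SemidirectProduct.rightHom.comp Φ) = ρ.comp P.pr := by
      ext v
      simp only [MonoidHom.comp_apply, SemidirectProduct.rightHom_eq_right]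
      show (FreeGroup.lift (fun v => (⟨C v, ρ (P.gen v)⟩ :
        (A → FreeGroup V) ⋊[shiftAut A (FreeGroup V)] A)) (FreeGroup.of v)).right = _
      rw [FreeGroup.lift_apply_of]
      rfl
    exact DFunLike.congr_fun h w
  have hof : ∀ v a, (Φ (FreeGroup.of v)).left a = C v a := by
    intro v a
    show (FreeGroup.lift (fun v => (⟨C v, ρ (P.gen v)⟩ :
        (A → FreeGroup V) ⋊[shiftAut A (FreeGroup V)] A)) (FreeGroup.of v)).left a = _
    rw [FreeGroup.lift_apply_of]
  have hmul : ∀ a w w', (Φ (w * w')).left a = (Φ w).left a * (Φ w').left (a * ρ (P.pr w)) := by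
    intro a w w'
    rw [map_mul, SemidirectProduct.mul_left, Pi.mul_apply, shiftAut_apply, hr]
  have hone : ∀ a, (Φ 1).left a = 1 := by
    intro a
    rw [map_one]; rfl
  have hinv : ∀ a w, (Φ w⁻¹).left a = ((Φ w).left (a * (ρ (P.pr w))⁻¹))⁻¹ := by
    intro a w
    have h := hmul a w⁻¹ w
    have h2 : ρ (P.pr w⁻¹) = (ρ (P.pr w))⁻¹ := by rw [map_inv, map_inv]
    rw [inv_mul_cancel, hone, h2] at h
    exact eq_inv_of_mul_eq_one_left h.symm
  have hmk : ∀ w a, P.pr ((Φ w).left a) = P.pr w := by
    intro w
    refine FreeGroup.induction_on (C := fun w => ∀ a, P.pr ((Φ w).left a) = P.pr w) w ?_ ?_ ?_ ?_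
    · intro a; rw [hone]
    · intro v a; rw [hof, hC]; rfl
    · intro v h a; rw [hinv, map_inv, map_inv, h]
    · intro x y hx hy a; rw [hmul, map_mul, map_mul, hx, hy]
  exact ⟨⟨fun a w => (Φ w).left a, hmul, fun a w => hmk w a⟩, fun v a => hof v a⟩

/-- The value of the word of `e` before the letter `k`. -/
def Pres.pre (P : Pres V E) (e : E) (k : ℕ) : FreeGroup V := FreeGroup.mk ((P.word e).take k)

theorem pre_zero (P : Pres V E) (e : E) : P.pre e 0 = 1 := by
  unfold Pres.pre
  rw [List.take_zero]
  rfl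

theorem pre_len (P : Pres V E) (e : E) : P.pre e (P.len e) = P.rel e := by
  unfold Pres.pre Pres.rel
  rw [List.take_length]

/-- the letter `k` as an element of the free group -/
def Pres.letter (P : Pres V E) (e : E) (k : Fin (P.len e)) : FreeGroup V :=
  FreeGroup.mk [(P.word e).get k]

theorem pre_succ (P : Pres V E) (e : E) (k : Fin (P.len e)) :
    P.pre e (k + 1) = P.pre e k * P.letter e k := by
  unfold Pres.pre Pres.letter
  rw [FreeGroup.mul_mk]
  congr 1
  rw [List.take_add_one]
  congr 1
  simp

theorem letter_true (P : Pres V E) (e : E) (k : Fin (P.len e))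
    (h : ((P.word e).get k).2 = true) : P.letter e k = FreeGroup.of (P.sv e k) := by
  unfold Pres.letter Pres.sv FreeGroup.of
  generalize (P.word e).get k = x at h ⊢
  obtain ⟨v, b⟩ := x
  simp only at h
  rw [h]

theorem letter_false (P : Pres V E) (e : E) (k : Fin (P.len e))
    (h : ((P.word e).get k).2 = false) : P.letter e k = (FreeGroup.of (P.sv e k))⁻¹ := by
  unfold Pres.letter Pres.sv FreeGroup.of
  generalize (P.word e).get k = x at h ⊢
  obtain ⟨v, b⟩ := x
  simp only at h
  rw [h, FreeGroup.inv_mk]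
  rfl

theorem sg_true (P : Pres V E) (e : E) (k : Fin (P.len e))
    (h : ((P.word e).get k).2 = true) : P.sg e k = P.pr (P.pre e k) := by
  unfold Pres.sg Pres.pre
  rw [if_pos h]

theorem sg_false (P : Pres V E) (e : E) (k : Fin (P.len e))
    (h : ((P.word e).get k).2 = false) : P.sg e k = P.pr (P.pre e (k + 1)) := by
  unfold Pres.sg Pres.pre
  rw [if_neg (by rw [h]; decide)]

/-- the value of a cocycle at one letter -/
theorem coc_letter {P : Pres V E} {ρ : P.G →* A} (D : P.Coc ρ) (a : A) (e : E)
    (k : Fin (P.len e)) :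
    D.c (a * ρ (P.pr (P.pre e k))) (P.letter e k) =
      if ((P.word e).get k).2 then
        D.c (P.side ρ (e, a) k).2 (FreeGroup.of (P.side ρ (e, a) k).1)
      else (D.c (P.side ρ (e, a) k).2 (FreeGroup.of (P.side ρ (e, a) k).1))⁻¹ := by
  unfold Pres.side
  cases h : ((P.word e).get k).2 with
  | true =>
    rw [if_pos rfl, letter_true P e k h]
    simp only
    rw [sg_true P e k h]
  | false =>
    rw [if_neg (by decide), letter_false P e k h]
    simp only
    rw [sg_false P e k h, D.inv, pre_succ, letter_false P e k h]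
    simp only [map_mul, map_inv, mul_assoc]

/-- a cocycle which fixes the letters of a segment of the word fixes the segment -/
theorem coc_seg {P : Pres V E} {ρ : P.G →* A} (D : P.Coc ρ) (a : A) (e : E) (i : ℕ) :
    ∀ j : ℕ, i ≤ j → j ≤ P.len e →
      (∀ k : Fin (P.len e), i ≤ k → (k : ℕ) < j →
        D.c (P.side ρ (e, a) k).2 (FreeGroup.of (P.side ρ (e, a) k).1) =
          FreeGroup.of (P.side ρ (e, a) k).1) →
      D.c (a * ρ (P.pr (P.pre e i))) ((P.pre e i)⁻¹ * P.pre e j) =
        (P.pre e i)⁻¹ * P.pre e j := by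
  intro j hij
  induction j, hij using Nat.le_induction with
  | base =>
    intro _ _
    rw [inv_mul_cancel, D.one]
  | succ j hij ih =>
    intro hj hfix
    have h1 := ih (by omega) fun k hk1 hk2 => hfix k hk1 (by omega)
    let k : Fin (P.len e) := ⟨j, by omega⟩
    have h2 : P.pre e (j + 1) = P.pre e j * P.letter e k := pre_succ P e k
    have h3 := coc_letter D a e k
    have h4 := hfix k hij (Nat.lt_succ_self j)
    rw [h4] at h3
    have h5 : (if ((P.word e).get k).2 then FreeGroup.of (P.side ρ (e, a) k).1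
        else (FreeGroup.of (P.side ρ (e, a) k).1)⁻¹) = P.letter e k := by
      cases h : ((P.word e).get k).2 with
      | true => rw [if_pos rfl, letter_true P e k h]; rfl
      | false => rw [if_neg (by decide), letter_false P e k h]; rfl
    rw [h5] at h3
    rw [h2, ← mul_assoc, D.mul, h1]
    congr 1
    have h6 : a * ρ (P.pr (P.pre e i)) * ρ (P.pr ((P.pre e i)⁻¹ * P.pre e j)) =
        a * ρ (P.pr (P.pre e j)) := by
      rw [mul_assoc, ← map_mul, ← map_mul, mul_inv_cancel_left]
    rw [h6]
    exact h3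

/-- the side `k` of a 2-cell expressed by the other sides -/
def Pres.sol (P : Pres V E) (e : E) (k : Fin (P.len e)) : FreeGroup V :=
  if ((P.word e).get k).2 then
    (P.pre e k)⁻¹ * (P.rel e)⁻¹ * P.pre e (k + 1)
  else (P.pre e (k + 1))⁻¹ * P.rel e * P.pre e k

theorem pr_sol (P : Pres V E) (e : E) (k : Fin (P.len e)) :
    P.pr (P.sol e k) = P.gen (P.sv e k) := by
  unfold Pres.sol
  cases h : ((P.word e).get k).2 with
  | true =>
    rw [if_pos rfl, map_mul, map_mul, map_inv, map_inv, pr_rel, inv_one, mul_one, pre_succ,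
      map_mul, inv_mul_cancel_left, letter_true P e k h]
    rfl
  | false =>
    rw [if_neg (by decide), map_mul, map_mul, map_inv, pr_rel, mul_one, pre_succ, map_mul,
      mul_inv_rev, inv_mul_cancel_right, letter_false P e k h, map_inv, inv_inv]
    rfl

theorem exists_coc (P : Pres V E) (ρ : P.G →* A) (hfree : P.FreeSides ρ) :
    ∀ (n : ℕ) (S : Finset (E × A)), S.card = n →
      ∃ C : P.Coc ρ, ∀ d ∈ S, C.c d.2 (P.rel d.1) = 1 := by
  classical
  intro n
  induction n with
  | zero =>
    intro S hS
    refine ⟨Pres.Coc.triv P ρ, fun d hd => ?_⟩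
    rw [Finset.card_eq_zero.1 hS] at hd
    exact absurd hd (Finset.notMem_empty d)
  | succ n ih =>
    intro S hS
    have hne : S.Nonempty := by
      rw [← Finset.card_pos, hS]; exact Nat.succ_pos n
    obtain ⟨d, hd, k, hk⟩ := hfree S hne
    obtain ⟨C₁, hC₁⟩ := ih (S.erase d) (by rw [Finset.card_erase_of_mem hd, hS]; rfl)
    obtain ⟨D, hD⟩ := exists_lift P ρ
      (fun v a => if (v, a) = P.side ρ d k then P.sol d.1 k else FreeGroup.of v) (by
        intro v a
        split_ifs with h
        · rw [pr_sol]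
          have h1 : v = P.sv d.1 k := congrArg Prod.fst h
          rw [h1]
        · rfl)
    have hfree1 : ∀ d' ∈ S, ∀ k' : Fin (P.len d'.1), (d' ≠ d ∨ (k' : ℕ) ≠ k) →
        D.c (P.side ρ d' k').2 (FreeGroup.of (P.side ρ d' k').1) =
          FreeGroup.of (P.side ρ d' k').1 := by
      intro d' hd' k' hne'
      rw [hD, if_neg]
      intro h
      obtain ⟨h1, h2⟩ := hk d' hd' k' h
      rcases hne' with h3 | h3
      · exact h3 h1
      · exact h3 h2
    have hself : D.c (P.side ρ d k).2 (FreeGroup.of (P.side ρ d k).1) = P.sol d.1 k := by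
      rw [hD, if_pos rfl]
    refine ⟨C₁.comp D, fun d' hd' => ?_⟩
    show C₁.c d'.2 (D.c d'.2 (P.rel d'.1)) = 1
    by_cases hdd : d' = d
    · subst hdd
      have h1 : D.c d'.2 (P.rel d'.1) = 1 := by
        have s1 := coc_seg D d'.2 d'.1 0 k (Nat.zero_le _) k.2.le fun j _ hj =>
          hfree1 d' hd j (Or.inr (by omega))
        have s2 := coc_seg D d'.2 d'.1 (k + 1) (P.len d'.1) k.2 le_rfl fun j hj _ =>
          hfree1 d' hd j (Or.inr (by omega))
        have s3 := coc_letter D d'.2 d'.1 k
        rw [pre_zero, map_one, map_one, mul_one, inv_one, one_mul] at s1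
        rw [pre_len] at s2
        have hself' : D.c (P.side ρ (d'.1, d'.2) k).2 (FreeGroup.of (P.side ρ (d'.1, d'.2) k).1) =
            P.sol d'.1 k := hself
        rw [hself'] at s3
        have s4 : P.rel d'.1 = P.pre d'.1 k * P.letter d'.1 k *
            ((P.pre d'.1 (k + 1))⁻¹ * P.rel d'.1) := by
          rw [← pre_succ, mul_inv_cancel_left]
        rw [s4, D.mul, D.mul, s1, s3, ← pre_succ, s2]
        unfold Pres.sol
        cases h : ((P.word d'.1).get k).2 with
        | true =>
          rw [if_pos rfl, if_pos rfl]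
          group
        | false =>
          rw [if_neg (by decide), if_neg (by decide)]
          group
      rw [h1, C₁.one]
    · have h1 : D.c d'.2 (P.rel d'.1) = P.rel d'.1 := by
        have s1 := coc_seg D d'.2 d'.1 0 (P.len d'.1) (Nat.zero_le _) le_rfl fun j _ _ =>
          hfree1 d' hd' j (Or.inl hdd)
        rw [pre_zero, map_one, map_one, mul_one, inv_one, one_mul, pre_len] at s1
        exact s1
      rw [h1]
      exact hC₁ d' (Finset.mem_erase.2 ⟨hdd, hd'⟩)

end Pool.Agent.Q279.OT
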