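import Pool.Agent.Q279.OT.Cov
import Pool.Agent.TH625.LOG.Ker
import Pool.Agent.TH625.LOG.LI

/-!
# The kernel of an ordered action passing the test is locally indicable
-/

set_option autoImplicit false

namespace Pool.Agent.Q279.OT

open Pool.Agent.TH625.LOG (LocInd exists_finset_hom free_li surj_of_ne real_to_int)

variable {V E : Type} {A : Type} [Group A]

theorem exists_cells (P : Pres V E) (ρ : P.G →* A) (w : FreeGroup V)
    (hw : w ∈ Subgroup.normalClosure (Set.range P.rel)) :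
    ∀ a : A, ∃ S : Finset (E × A), ∀ C : P.Coc ρ, (∀ d ∈ S, C.c d.2 (P.rel d.1) = 1) →
      C.c a w = 1 := by
  classical
  have hw' : w ∈ Subgroup.closure (Group.conjugatesOfSet (Set.range P.rel)) := hw
  induction hw' using Subgroup.closure_induction with
  | mem x hx =>
    intro a
    obtain ⟨r, ⟨e, rfl⟩, hr⟩ := Group.mem_conjugatesOfSet_iff.1 hx
    obtain ⟨u, rfl⟩ := isConj_iff.1 hr
    refine ⟨{(e, a * ρ (P.pr u))}, fun C hC => ?_⟩
    have h1 := hC (e, a * ρ (P.pr u)) (Finset.mem_singleton_self _)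
    simp only at h1
    rw [C.mul, C.mul, h1, mul_one, map_mul, pr_rel, mul_one, ← C.mul, mul_inv_cancel, C.one]
  | one => exact fun a => ⟨∅, fun C _ => C.one a⟩
  | mul x y hx hy ihx ihy =>
    intro a
    obtain ⟨S, hS⟩ := ihx hx a
    obtain ⟨T, hT⟩ := ihy hy (a * ρ (P.pr x))
    refine ⟨S ∪ T, fun C hC => ?_⟩
    rw [C.mul, hS C fun d hd => hC d (Finset.mem_union_left _ hd),
      hT C fun d hd => hC d (Finset.mem_union_right _ hd), one_mul]
  | inv x hx ihx =>
    intro a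
    obtain ⟨S, hS⟩ := ihx hx (a * (ρ (P.pr x))⁻¹)
    refine ⟨S, fun C hC => ?_⟩
    rw [C.inv, hS C hC, inv_one]

theorem ker_li (P : Pres V E) (ρ : P.G →* A) (hfree : P.FreeSides ρ) (H : Subgroup P.G)
    (hH : H.FG) (hk : H ≤ ρ.ker) (hne : H ≠ ⊥) :
    ∃ ψ : H →* Multiplicative ℤ, ∃ x, ψ x ≠ 1 := by
  classical
  by_contra hcon
  push Not at hcon
  have : Group.FG H := (Group.fg_iff_subgroup_fg H).2 hH
  obtain ⟨α, hα, R, hR⟩ := Group.fg_iff_exists_freeGroup_hom_surjective_finite.1 this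
  -- lift to the free group
  have hsurj : Function.Surjective P.pr := PresentedGroup.mk_surjective _
  choose lft hlft using hsurj
  let Q : FreeGroup α →* FreeGroup V := FreeGroup.lift fun i => lft (R (FreeGroup.of i))
  have hQ : ∀ x, P.pr (Q x) = R x := by
    intro x
    have h : P.pr.comp Q = H.subtype.comp R := by
      ext i
      show P.pr (Q (FreeGroup.of i)) = R (FreeGroup.of i)
      have h2 : Q (FreeGroup.of i) = lft (R (FreeGroup.of i)) := FreeGroup.lift_apply_of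
      rw [h2, hlft]
    exact DFunLike.congr_fun h x
  obtain ⟨T, hTK, hT⟩ := exists_finset_hom R.ker
  have hcells : ∀ x ∈ T, ∃ S : Finset (E × A), ∀ C : P.Coc ρ,
      (∀ d ∈ S, C.c d.2 (P.rel d.1) = 1) → C.c 1 (Q x) = 1 := by
    intro x hx
    refine exists_cells P ρ (Q x) ?_ 1
    have h1 : P.pr (Q x) = 1 := by
      rw [hQ, (MonoidHom.mem_ker).1 (hTK x hx)]
      rfl
    exact (PresentedGroup.mk_eq_one_iff).1 h1
  choose! S hS using hcells
  obtain ⟨C, hC⟩ := exists_coc P ρ hfree _ (T.biUnion S) rfl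
  have hρQ : ∀ x, ρ (P.pr (Q x)) = 1 := by
    intro x
    rw [hQ]
    exact MonoidHom.mem_ker.1 (hk (R x).2)
  let Θ : FreeGroup α →* FreeGroup V :=
    MonoidHom.mk' (fun x => C.c 1 (Q x)) (by
      intro x y
      show C.c 1 (Q (x * y)) = C.c 1 (Q x) * C.c 1 (Q y)
      rw [map_mul, C.mul, hρQ, mul_one])
  have hΘT : ∀ x ∈ T, Θ x = 1 := by
    intro x hx
    exact hS x hx C fun d hd => hC d (Finset.mem_biUnion.2 ⟨x, hx, hd⟩)
  have hJ : Θ.range = ⊥ := by
    by_contra hJ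
    obtain ⟨ψ, ⟨_, y, rfl⟩, hy⟩ := free_li Θ.range hJ
    apply hy
    let φ : FreeGroup α →* Multiplicative ℤ := ψ.comp Θ.rangeRestrict
    have hφ : ∀ x ∈ R.ker, φ x = 1 := by
      apply hT φ
      intro x hx
      show ψ (Θ.rangeRestrict x) = 1
      have h1 : Θ.rangeRestrict x = 1 := Subtype.ext (hΘT x hx)
      rw [h1, map_one]
    let f : H →* Multiplicative ℤ :=
      R.liftOfRightInverse (Function.surjInv hR) (Function.rightInverse_surjInv hR)
        ⟨φ, fun x hx => MonoidHom.mem_ker.2 (hφ x hx)⟩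
    have hf : ∀ x, f (R x) = φ x := fun x =>
      R.liftOfRightInverse_comp_apply (Function.surjInv hR) (Function.rightInverse_surjInv hR) _ x
    have h2 := hcon f (R y)
    rw [hf] at h2
    exact h2
  apply hne
  rw [Subgroup.eq_bot_iff_forall]
  intro h hh
  obtain ⟨x, hx⟩ := hR ⟨h, hh⟩
  have h1 : Θ x = 1 := by
    have h2 : Θ x ∈ Θ.range := ⟨x, rfl⟩
    rw [hJ] at h2
    exact Subgroup.mem_bot.1 h2
  have h3 : P.pr (Q x) = 1 := by
    rw [← C.pr_c 1 (Q x)]
    have h4 : C.c 1 (Q x) = 1 := h1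
    rw [h4, map_one]
  rw [hQ, hx] at h3
  exact h3

/-! ### Actions with a locally indicable image, built up by affine steps -/

/-- Actions on totally ordered sets that are built up by affine steps: either the group of the
order automorphisms induced by `G` is locally indicable, or the ordered set is `Ω ×ₗ ℝ`, `G` acts on
`Ω` in such a way, and every `g` maps the fibre over `ω` to the fibre over `g ω` by an increasing
affine map `x ↦ t x + s`, where `t` and `s` may depend on `g` and `ω`. -/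
inductive PolyAffine (G : Type) [Group G] :
    ∀ (Ω : Type) (_ : LinearOrder Ω), (G →* (Ω ≃o Ω)) → Prop
  | base (Ω : Type) (o : LinearOrder Ω) (σ : G →* (Ω ≃o Ω)) (h : LocInd σ.range) :
      PolyAffine G Ω o σ
  | step (Ω : Type) (o : LinearOrder Ω) (σ : G →* (Ω ≃o Ω)) (h : PolyAffine G Ω o σ)
      (ρ : G →* ((Ω ×ₗ ℝ) ≃o (Ω ×ₗ ℝ)))
      (hρ : ∀ (g : G) (ω : Ω), ∃ t s : ℝ, 0 < t ∧
        ∀ x : ℝ, ρ g (toLex (ω, x)) = toLex (σ g ω, t * x + s)) :
      PolyAffine G (Ω ×ₗ ℝ) inferInstance ρ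

/-- one affine step -/
theorem step_aux {G : Type} [Group G] {Ω : Type} [LinearOrder Ω] (σ : G →* (Ω ≃o Ω))
    (ρ : G →* ((Ω ×ₗ ℝ) ≃o (Ω ×ₗ ℝ)))
    (hρ : ∀ (g : G) (ω : Ω), ∃ t s : ℝ, 0 < t ∧
      ∀ x : ℝ, ρ g (toLex (ω, x)) = toLex (σ g ω, t * x + s))
    (ih : ∀ H : Subgroup G, H.FG → ¬ H ≤ σ.ker →
      ∃ ψ : H →* Multiplicative ℤ, Function.Surjective ψ)
    (H : Subgroup G) (hH : H.FG) (hne : ¬ H ≤ ρ.ker) :
    ∃ ψ : H →* Multiplicative ℤ, Function.Surjective ψ := by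
  classical
  by_cases hσ : H ≤ σ.ker
  swap
  · exact ih H hH hσ
  have : Group.FG H := (Group.fg_iff_subgroup_fg H).2 hH
  have hfix : ∀ h ∈ H, ∀ ω, σ h ω = ω := by
    intro h hh ω
    have h1 : σ h = 1 := hσ hh
    rw [h1]; rfl
  choose! t s ht hts using hρ
  have hmul : ∀ g ∈ H, ∀ h ∈ H, ∀ ω, t (g * h) ω = t g ω * t h ω ∧
      s (g * h) ω = t g ω * s h ω + s g ω := by
    intro g hg h hh ω
    have e : ∀ x : ℝ, t (g * h) ω * x + s (g * h) ω = t g ω * (t h ω * x + s h ω) + s g ω := by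
      intro x
      have e1 := hts (g * h) ω x
      have e2 : ρ (g * h) (toLex (ω, x)) = ρ g (ρ h (toLex (ω, x))) := by
        rw [map_mul]; rfl
      rw [e2, hts h ω x, hfix h hh ω, hts g ω, hfix g hg ω] at e1
      have e3 := congrArg (fun z => (ofLex z).2) e1
      simp only [ofLex_toLex] at e3
      linarith
    have e0 := e 0
    have e1 := e 1
    constructor <;> linarith
  obtain ⟨h₀, hh₀, hρ₀⟩ : ∃ h ∈ H, ρ h ≠ 1 := by
    by_contra hcon
    push Not at hcon
    exact hne fun h hh => hcon h hh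
  obtain ⟨ω, hω⟩ : ∃ ω, t h₀ ω ≠ 1 ∨ s h₀ ω ≠ 0 := by
    by_contra hcon
    push Not at hcon
    apply hρ₀
    ext z
    obtain ⟨⟨ω, x⟩, rfl⟩ := toLex.surjective z
    rw [hts h₀ ω x, (hcon ω).1, (hcon ω).2, hfix h₀ hh₀ ω, one_mul, add_zero]
    rfl
  let τ : H →* Multiplicative ℝ :=
    MonoidHom.mk' (fun h => Multiplicative.ofAdd (Real.log (t h.1 ω))) (by
      rintro ⟨g, hg⟩ ⟨h, hh⟩
      apply Multiplicative.toAdd.injective
      show Real.log (t (g * h) ω) = Real.log (t g ω) + Real.log (t h ω)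
      rw [(hmul g hg h hh ω).1, Real.log_mul (ht g ω).ne' (ht h ω).ne'])
  by_cases hsl : ∃ x : H, τ x ≠ 1
  · obtain ⟨x, hx⟩ := hsl
    obtain ⟨ψ, hψ⟩ := real_to_int τ x hx
    exact surj_of_ne ψ hψ
  push Not at hsl
  have ht1 : ∀ h ∈ H, t h ω = 1 := by
    intro h hh
    have h1 : Real.log (t h ω) = 0 := hsl ⟨h, hh⟩
    rcases Real.log_eq_zero.1 h1 with h2 | h2 | h2
    · exact absurd h2 (ht h ω).ne'
    · exact h2
    · have := ht h ω
      linarith
  let τ' : H →* Multiplicative ℝ :=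
    MonoidHom.mk' (fun h => Multiplicative.ofAdd (s h.1 ω)) (by
      rintro ⟨g, hg⟩ ⟨h, hh⟩
      apply Multiplicative.toAdd.injective
      show s (g * h) ω = s g ω + s h ω
      rw [(hmul g hg h hh ω).2, ht1 g hg]
      ring)
  obtain ⟨ψ, hψ⟩ := real_to_int τ' ⟨h₀, hh₀⟩ (by
    intro h
    have h1 : s h₀ ω = 0 := h
    rcases hω with h2 | h2
    · exact h2 (ht1 h₀ hh₀)
    · exact h2 h1)
  exact surj_of_ne ψ hψ

/-- every finitely generated subgroup that acts nontrivially maps onto the integers -/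
theorem PolyAffine.maps {G : Type} [Group G] {Ω : Type} {o : LinearOrder Ω}
    {ρ : G →* (Ω ≃o Ω)} (h : PolyAffine G Ω o ρ) :
    ∀ H : Subgroup G, H.FG → ¬ H ≤ ρ.ker →
      ∃ ψ : H →* Multiplicative ℤ, Function.Surjective ψ := by
  induction h with
  | base Ω o σ h =>
    intro H hH hne
    refine h.of_hom hH σ.rangeRestrict ?_
    rwa [MonoidHom.ker_rangeRestrict]
  | step Ω o σ h ρ hρ ih => exact step_aux σ ρ hρ ih

theorem PolyAffine.comp {G G' : Type} [Group G] [Group G'] (f : G' →* G) {Ω : Type}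
    {o : LinearOrder Ω} {ρ : G →* (Ω ≃o Ω)} (h : PolyAffine G Ω o ρ) :
    PolyAffine G' Ω o (ρ.comp f) := by
  induction h with
  | base Ω o σ h =>
    refine .base Ω o _ ?_
    intro H hH hne
    have hle : (σ.comp f).range ≤ σ.range := by
      rintro _ ⟨x, rfl⟩
      exact ⟨f x, rfl⟩
    have h1 : (H.map (Subgroup.inclusion hle)).FG := by
      obtain ⟨S, hS⟩ := hH
      classical
      refine ⟨S.image (Subgroup.inclusion hle), ?_⟩
      rw [Finset.coe_image, ← hS, MonoidHom.map_closure]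
    have h2 : H.map (Subgroup.inclusion hle) ≠ ⊥ := by
      intro h0
      apply hne
      rwa [Subgroup.map_eq_bot_iff_of_injective _ (Subgroup.inclusion_injective hle)] at h0
    obtain ⟨ψ, hψ⟩ := h _ h1 h2
    let e : H ≃* H.map (Subgroup.inclusion hle) :=
      H.equivMapOfInjective _ (Subgroup.inclusion_injective hle)
    exact ⟨ψ.comp e.toMonoidHom, hψ.comp e.surjective⟩
  | step Ω o σ h ρ hρ ih => exact .step Ω o (σ.comp f) ih (ρ.comp f) fun g ω => hρ (f g) ω

theorem locInd (P : Pres V E) {Ω : Type} [o : LinearOrder Ω] (ρ : P.G →* (Ω ≃o Ω))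
    (h : P.OrderedTest Ω ρ) (hρ : PolyAffine P.G Ω o ρ) : LocInd P.G := by
  intro H hH hne
  by_cases hk : H ≤ ρ.ker
  · obtain ⟨ψ, hψ⟩ := ker_li P ρ (freeSides_of_ordered P ρ h) H hH hk hne
    exact surj_of_ne ψ hψ
  · exact hρ.maps H hH hk

end Pool.Agent.Q279.OT
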