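import Pool.Agent.Q279.OT.Base

/-!
# Maps of 2-complexes, subcomplexes, contractible complexes
-/

set_option autoImplicit false

namespace Pool.Agent.Q279.OT

variable {V E V' E' : Type}

/-- A map of 2-complexes with one vertex that maps 1-cells to 1-cells and 2-cells to 2-cells. -/
structure Map (P' : Pres V' E') (P : Pres V E) where
  fV : V' → V
  fE : E' → E
  word : ∀ e, P.word (fE e) = (P'.word e).map (Prod.map fV id)

theorem map_aux {P' : Pres V' E'} {P : Pres V E} (f : Map P' P) :
    ∀ r ∈ Set.range P'.rel, FreeGroup.lift (fun v => P.gen (f.fV v)) r = 1 := by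
  rintro _ ⟨e, rfl⟩
  have h1 : P.pr (P.rel (f.fE e)) = 1 := PresentedGroup.one_of_mem ⟨f.fE e, rfl⟩
  have h2 : FreeGroup.lift (fun v => P.gen (f.fV v)) = P.pr.comp (FreeGroup.map f.fV) := by
    ext v
    rw [FreeGroup.lift_apply_of]
    simp [Pres.gen]
  rw [h2, MonoidHom.comp_apply]
  unfold Pres.rel at h1 ⊢
  rw [FreeGroup.map.mk, ← h1, f.word]
  rfl

/-- the induced homomorphism of the fundamental groups -/
noncomputable def Map.hom {P' : Pres V' E'} {P : Pres V E} (f : Map P' P) : P'.G →* P.G :=
  PresentedGroup.toGroup (map_aux f)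

theorem hom_pr {P' : Pres V' E'} {P : Pres V E} (f : Map P' P) (w : FreeGroup V') :
    f.hom (P'.pr w) = P.pr (FreeGroup.map f.fV w) := by
  have h : f.hom.comp P'.pr = P.pr.comp (FreeGroup.map f.fV) := by
    ext v
    show f.hom (PresentedGroup.of v) = P.pr (FreeGroup.map f.fV (FreeGroup.of v))
    unfold Map.hom
    rw [PresentedGroup.toGroup.of, FreeGroup.map.of]
    rfl
  exact DFunLike.congr_fun h w

/-- the side of the image -/
def Map.idx {P' : Pres V' E'} {P : Pres V E} (f : Map P' P) (e : E') (k : Fin (P'.len e)) :
    Fin (P.len (f.fE e)) :=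
  ⟨k, by
    have h := congrArg List.length (f.word e)
    rw [List.length_map] at h
    unfold Pres.len
    rw [h]
    exact k.2⟩

theorem get_idx {P' : Pres V' E'} {P : Pres V E} (f : Map P' P) (e : E') (k : Fin (P'.len e)) :
    (P.word (f.fE e)).get (f.idx e k) = Prod.map f.fV id ((P'.word e).get k) := by
  have h := f.word e
  unfold Map.idx
  simp only [List.get_eq_getElem]
  simp [h]

theorem hom_sg {P' : Pres V' E'} {P : Pres V E} (f : Map P' P) (e : E') (k : Fin (P'.len e)) :
    f.hom (P'.sg e k) = P.sg (f.fE e) (f.idx e k) := by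
  unfold Pres.sg
  rw [hom_pr, FreeGroup.map.mk, get_idx, f.word, ← List.map_take]
  rfl

theorem hom_sv {P' : Pres V' E'} {P : Pres V E} (f : Map P' P) (e : E') (k : Fin (P'.len e)) :
    f.fV (P'.sv e k) = P.sv (f.fE e) (f.idx e k) := by
  unfold Pres.sv
  rw [get_idx]
  rfl

theorem map_test {P' : Pres V' E'} {P : Pres V E} (f : Map P' P)
    (hf : Function.Injective f.fE) {Ω : Type} [LinearOrder Ω] (ρ : P.G →* (Ω ≃o Ω))
    (h : P.OrderedTest Ω ρ) : P'.OrderedTest Ω (ρ.comp f.hom) := by
  obtain ⟨w, c, hlt⟩ := h
  have hlen : ∀ e, P.len (f.fE e) = P'.len e := by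
    intro e
    have h := congrArg List.length (f.word e)
    rw [List.length_map] at h
    exact h
  have hidx : ∀ e, f.idx e (Fin.cast (hlen e) (c (f.fE e))) = c (f.fE e) := fun e => Fin.ext rfl
  refine ⟨fun e => w (f.fE e), fun e => Fin.cast (hlen e) (c (f.fE e)), fun e e' k' h1 h2 => ?_⟩
  simp only [MonoidHom.comp_apply]
  rw [hom_sg, hom_sg, hidx]
  refine hlt (f.fE e) (f.fE e') (f.idx e' k') ?_ ?_
  · rw [← hom_sv, h1, hom_sv, hidx]
  · rcases h2 with h2 | h2
    · exact Or.inl fun h3 => h2 (hf h3)
    · exact Or.inr h2

/-- The subcomplex with all the 1-cells and the 2-cells in `S`. -/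
def Pres.sub (P : Pres V E) (S : Set E) : Pres V S := ⟨fun e => P.word e⟩

/-- the inclusion of the subcomplex -/
def Pres.incl (P : Pres V E) (S : Set E) : Map (P.sub S) P :=
  ⟨id, Subtype.val, fun e => by simp [Pres.sub]⟩

/-! ### Contractible complexes -/

/-- The exponent sum of the letter `v` in a word. -/
def expSum [DecidableEq V] (v : V) (w : List (V × Bool)) : ℤ :=
  (w.map fun x => if x.1 = v then (if x.2 then 1 else -1) else 0).sum

/-- The integral boundary operator `C₂ → C₁` of the 2-complex. -/
def Pres.bd [DecidableEq V] [Fintype E] (P : Pres V E) (n : E → ℤ) (v : V) : ℤ :=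
  ∑ e, n e * expSum v (P.word e)

/-- The 2-complex is contractible: its fundamental group is trivial and `C₂ → C₁` is injective
(so that `H₂ = 0`). -/
def Pres.Contractible [DecidableEq V] [Fintype E] (P : Pres V E) : Prop :=
  Subsingleton P.G ∧ ∀ n : E → ℤ, (∀ v, P.bd n v = 0) → ∀ e, n e = 0

/-- The 2-complex obtained by attaching further 2-cells along the words `w x`. -/
def Pres.attach {X : Type} (P : Pres V E) (w : X → List (V × Bool)) : Pres V (E ⊕ X) :=
  ⟨Sum.elim P.word w⟩

theorem contractible_of_card [Fintype V] [DecidableEq V] [Fintype E] (P : Pres V E)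
    (h1 : Subsingleton P.G) (hcard : Fintype.card V = Fintype.card E) : P.Contractible := by
  classical
  refine ⟨h1, ?_⟩
  let f : (E → ℤ) →ₗ[ℤ] (V → ℤ) :=
    { toFun := fun n v => P.bd n v
      map_add' := by
        intro u u'
        funext v
        simp only [Pres.bd, Pi.add_apply, add_mul, Finset.sum_add_distrib]
      map_smul' := by
        intro r u
        funext v
        simp only [Pres.bd, Pi.smul_apply, smul_eq_mul, RingHom.id_apply, Finset.mul_sum,
          mul_assoc] }
  -- the abelianization modulo the image of `f`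
  let M := (V → ℤ) ⧸ LinearMap.range f
  let q : FreeGroup V →* Multiplicative M :=
    FreeGroup.lift fun v => Multiplicative.ofAdd (Submodule.Quotient.mk (Pi.single v (1 : ℤ)))
  have hq : ∀ w : List (V × Bool), q (FreeGroup.mk w) =
      Multiplicative.ofAdd (Submodule.Quotient.mk (fun v => expSum v w)) := by
    intro w
    induction w with
    | nil =>
      have h0 : (fun v : V => expSum v ([] : List (V × Bool))) = 0 := by
        funext v
        simp [expSum]
      rw [h0]
      have h00 : (FreeGroup.mk ([] : List (V × Bool))) = 1 := rfl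
      rw [h00, map_one]
      rfl
    | cons x w ih =>
      have e1 : FreeGroup.mk (x :: w) = FreeGroup.mk [x] * FreeGroup.mk w := by
        rw [FreeGroup.mul_mk]
        rfl
      have e2 : (fun v : V => expSum v (x :: w)) =
          (fun v => if x.1 = v then (if x.2 then (1 : ℤ) else -1) else 0) +
            fun v => expSum v w := by
        funext v
        simp [expSum]
      have e3 : q (FreeGroup.mk [x]) = Multiplicative.ofAdd (Submodule.Quotient.mk
          (fun v => if x.1 = v then (if x.2 then (1 : ℤ) else -1) else 0)) := by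
        obtain ⟨y, b⟩ := x
        cases b with
        | true =>
          have : q (FreeGroup.mk [(y, true)]) = Multiplicative.ofAdd
              (Submodule.Quotient.mk (Pi.single y (1 : ℤ))) := FreeGroup.lift_apply_of
          rw [this]
          congr 2
          funext v
          simp [Pi.single_apply, eq_comm]
        | false =>
          have h4 : FreeGroup.mk [(y, false)] = (FreeGroup.of y)⁻¹ := by
            unfold FreeGroup.of
            rw [FreeGroup.inv_mk]
            rfl
          rw [h4, map_inv]
          have : q (FreeGroup.of y) = Multiplicative.ofAdd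
              (Submodule.Quotient.mk (Pi.single y (1 : ℤ))) := FreeGroup.lift_apply_of
          rw [this, ← ofAdd_neg, ← Submodule.Quotient.mk_neg]
          congr 2
          funext v
          by_cases hv : y = v
          · subst hv; simp
          · have hv' : ¬ v = y := fun h => hv h.symm
            simp [hv, hv']
      rw [e1, map_mul, ih, e3, e2, Submodule.Quotient.mk_add, ofAdd_add]
  have hker : ∀ r ∈ Set.range P.rel, q r = 1 := by
    rintro _ ⟨e, rfl⟩
    unfold Pres.rel
    rw [hq]
    have h2 : (fun v => expSum v (P.word e)) ∈ LinearMap.range f := by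
      refine ⟨Pi.single e 1, ?_⟩
      funext v
      show P.bd (Pi.single e 1) v = _
      unfold Pres.bd
      rw [Finset.sum_eq_single e]
      · rw [Pi.single_eq_same, one_mul]
      · intro e' _ hne
        rw [Pi.single_eq_of_ne hne, zero_mul]
      · intro hn; exact absurd (Finset.mem_univ _) hn
    rw [(Submodule.Quotient.mk_eq_zero _).2 h2]
    rfl
  have hsurj : Function.Surjective f := by
    rw [← LinearMap.range_eq_top, eq_top_iff]
    intro u _
    have h3 : u = ∑ v, u v • (Pi.single v (1 : ℤ) : V → ℤ) := by
      funext x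
      rw [Finset.sum_apply]
      simp [Pi.single_apply]
    rw [h3]
    refine Submodule.sum_mem _ fun v _ => Submodule.smul_mem _ _ ?_
    have hlift : FreeGroup.lift (fun v => q (FreeGroup.of v)) = q := by
      ext v
      rw [FreeGroup.lift_apply_of]
    have hr' : ∀ r ∈ Set.range P.rel, FreeGroup.lift (fun v => q (FreeGroup.of v)) r = 1 := by
      intro r hr
      rw [hlift]
      exact hker r hr
    let Φ : P.G →* Multiplicative M := PresentedGroup.toGroup hr'
    have h4 : q (FreeGroup.of v) = 1 := by
      have h5 : Φ (P.pr (FreeGroup.of v)) = q (FreeGroup.of v) := PresentedGroup.toGroup.of hr'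
      rw [← h5, Subsingleton.elim (P.pr (FreeGroup.of v)) 1, map_one]
    have h7 : q (FreeGroup.of v) = Multiplicative.ofAdd
        (Submodule.Quotient.mk (Pi.single v (1 : ℤ))) := FreeGroup.lift_apply_of
    rw [h7] at h4
    exact (Submodule.Quotient.mk_eq_zero _).1 h4
  let σ : V ≃ E := Fintype.equivOfCardEq hcard
  let g : (V → ℤ) →ₗ[ℤ] (V → ℤ) := f.comp (LinearMap.funLeft ℤ ℤ σ.symm)
  have hg : Function.Surjective g := by
    intro y
    obtain ⟨u, hu⟩ := hsurj y
    refine ⟨fun v => u (σ v), ?_⟩
    show f (fun o => u (σ (σ.symm o))) = y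
    simp only [Equiv.apply_symm_apply]
    exact hu
  have hinj : Function.Injective g := OrzechProperty.injective_of_surjective_endomorphism g hg
  intro n hn e
  have h5 : g (fun v => n (σ v)) = 0 := by
    show f (fun o => n (σ (σ.symm o))) = 0
    simp only [Equiv.apply_symm_apply]
    funext v
    exact hn v
  have h6 := hinj (h5.trans (map_zero g).symm)
  have := congrFun h6 (σ.symm e)
  simpa using this

end Pool.Agent.Q279.OT
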