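import Pool.Agent.Q279.OT.Sub
import Pool.Agent.TH625.LOG.Tree

/-!
# Labelled oriented trees
-/

set_option autoImplicit false

namespace Pool.Agent.Q279.OT

open Pool.Agent.TH625.LOG (LOG)

variable {V E : Type}

/-- The 2-complex of a labelled oriented graph: the 2-cell of the edge `e` is attached along
`x_ini x_lab x_ter⁻¹ x_lab⁻¹`. -/
def ofLOG (L : LOG V E) : Pres V E :=
  ⟨fun e => [(L.ini e, true), (L.lab e, true), (L.ter e, false), (L.lab e, false)]⟩

theorem rel_ofLOG (L : LOG V E) (e : E) : (ofLOG L).rel e = L.rel e := rfl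

/-- A labelled oriented tree becomes contractible by attaching one 2-cell along any 1-cell. -/
theorem tree_contractible [Fintype V] [DecidableEq V] [Fintype E] (L : LOG V E) (hL : L.Conn)
    (hcard : Fintype.card V = Fintype.card E + 1) (v₀ : V) :
    ((ofLOG L).attach fun _ : Unit => [(v₀, true)]).Contractible := by
  refine contractible_of_card _ ?_ (by rw [Fintype.card_sum, hcard, Fintype.card_unit])
  have h := Pool.Agent.TH625.LOG.trivial_group L hL v₀
  have hs : Set.range ((ofLOG L).attach fun _ : Unit => [(v₀, true)]).rel =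
      Set.range L.rel ∪ {FreeGroup.of v₀} := by
    ext r
    constructor
    · rintro ⟨e | u, rfl⟩
      · exact Or.inl ⟨e, rfl⟩
      · exact Or.inr rfl
    · rintro (⟨e, rfl⟩ | h1)
      · exact ⟨Sum.inl e, rfl⟩
      · exact ⟨Sum.inr (), (Set.mem_singleton_iff.1 h1).symm⟩
  unfold Pres.G
  rw [hs]
  exact h

end Pool.Agent.Q279.OT
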